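import Pool.Agent.H992.BE.Defs

/-!
MP_6b977f_mp (helper992), task BE3: a continuous local modification of the sequence of the local
measures with uniform tightness.
-/

set_option autoImplicit false
open MeasureTheory Filter Topology Complex ProbabilityTheory
open scoped ContDiff ENNReal NNReal BoundedContinuousFunction

namespace Pool.Agent.H591.BE

open Pool.Agent.H992.BE

/-- diagonal choice -/
lemma diag {a : ℕ → ℕ → ℝ≥0∞} (ha : ∀ k, Tendsto (fun n => a k n) atTop (𝓝 0)) :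
    ∃ ρ : ℕ → ℕ, Tendsto ρ atTop atTop ∧ Tendsto (fun n => a (ρ n) n) atTop (𝓝 0) := by
  classical
  have h1 : ∀ k : ℕ, ∃ N : ℕ, ∀ n ≥ N, a k n ≤ ((k : ℝ≥0∞) + 1)⁻¹ := by
    intro k
    have h2 : (0 : ℝ≥0∞) < ((k : ℝ≥0∞) + 1)⁻¹ := by
      rw [ENNReal.inv_pos]
      exact ENNReal.add_ne_top.2 ⟨ENNReal.natCast_ne_top k, ENNReal.one_ne_top⟩
    exact eventually_atTop.1 ((ha k).eventually (Iic_mem_nhds h2))
  choose N hN using h1
  set ρ : ℕ → ℕ := fun n => Nat.findGreatest (fun k => N k ≤ n) n with hρ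
  have h3 : Tendsto ρ atTop atTop := by
    rw [tendsto_atTop]
    intro k
    filter_upwards [eventually_ge_atTop (max k (N k))] with n hn
    exact Nat.le_findGreatest ((le_max_left _ _).trans hn) ((le_max_right _ _).trans hn)
  refine ⟨ρ, h3, ?_⟩
  have h4 : ∀ᶠ n in atTop, a (ρ n) n ≤ ((ρ n : ℝ≥0∞) + 1)⁻¹ := by
    filter_upwards [eventually_ge_atTop (N 0)] with n hn
    have h5 : N (ρ n) ≤ n := Nat.findGreatest_spec (P := fun k => N k ≤ n) (Nat.zero_le n) hn
    exact hN (ρ n) n h5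
  have h6 : Tendsto (fun n => ((ρ n : ℝ≥0∞) + 1)⁻¹) atTop (𝓝 0) := by
    have h7 := ENNReal.tendsto_inv_nat_nhds_zero.comp ((tendsto_add_atTop_nat 1).comp h3)
    refine h7.congr fun n => ?_
    simp only [Function.comp_apply, Nat.cast_add, Nat.cast_one]
  exact tendsto_of_tendsto_of_tendsto_of_le_of_le' tendsto_const_nhds h6
    (Eventually.of_forall fun _ => zero_le) h4

/-- the local mass is measurable -/
lemma meas_mass [MeasurableSpace C(ℂ, ℝ)] [BorelSpace C(ℂ, ℝ)] (B : Set ℂ) :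
    Measurable (fun f : C(ℂ, ℝ) => ∫⁻ v in B, ‖f v‖ₑ) := by
  have h1 : Continuous (fun q : C(ℂ, ℝ) × ℂ => q.1 q.2) := ContinuousEval.continuous_eval
  have h2 : Measurable (fun q : C(ℂ, ℝ) × ℂ => ‖q.1 q.2‖ₑ) := h1.measurable.enorm
  exact h2.lintegral_prod_right'

/-- the real local mass -/
lemma real_mass (f : C(ℂ, ℝ)) (ρ : ℝ) {θ : ℝ≥0∞} (hθ : θ ≠ ⊤)
    (h : ∫⁻ v in Metric.closedBall (0 : ℂ) ρ, ‖f v‖ₑ < θ) :
    ∫ v in Metric.closedBall (0 : ℂ) ρ, |f v| ≤ θ.toReal := by
  have h1 : Integrable (fun v => f v) (volume.restrict (Metric.closedBall (0 : ℂ) ρ)) :=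
    f.continuous.continuousOn.integrableOn_compact (isCompact_closedBall _ _)
  have h2 := ofReal_integral_norm_eq_lintegral_enorm h1
  rw [← h2] at h
  have h3 : 0 ≤ ∫ v in Metric.closedBall (0 : ℂ) ρ, ‖f v‖ := integral_nonneg fun _ => norm_nonneg _
  have h4 := ENNReal.toReal_mono hθ h.le
  rw [ENNReal.toReal_ofReal h3] at h4
  exact h4

theorem mod (h0 : S_KS) (h1 : S_Near) (h2 : S_Regf) : S_Mod := by
  intro mS bS m hm
  obtain ⟨r, -, hrc, hrg, Cr, hCr, hrb⟩ := h2
  obtain ⟨ρ, hρ, hρ0⟩ := diag (a := fun k n => m n {f | ¬ Good (k : ℝ) f}) (fun k => hm.rep k)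
  -- tightness
  have ht : ∀ ε : ℝ≥0∞, 0 < ε → ∃ K : ℕ → ℝ, ∀ n (s : ℝ), m n {f | r s f ∉ KS K} ≤ ε := by
    intro ε hε
    obtain ⟨ε', hε', hsum⟩ := ENNReal.exists_pos_sum_of_countable hε.ne' ℕ
    choose CM hCM hM using fun R : ℕ => hm.mass ((R : ℝ) + 1)
    set θ : ℕ → ℝ≥0∞ := fun R => CM R / (ε' R : ℝ≥0∞) + 1 with hθ
    have e0 : ∀ R, ((ε' R : ℝ≥0) : ℝ≥0∞) ≠ 0 := fun R => ENNReal.coe_ne_zero.2 (hε' R).ne'
    have hθt : ∀ R, θ R ≠ ⊤ := fun R =>
      ENNReal.add_ne_top.2 ⟨ENNReal.div_ne_top (hCM R) (e0 R), ENNReal.one_ne_top⟩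
    have hθ0 : ∀ R, θ R ≠ 0 := fun R => by
      have : (0 : ℝ≥0∞) < θ R := lt_of_lt_of_le one_pos le_add_self
      exact this.ne'
    refine ⟨fun R => Cr * (θ R).toReal, fun n s => ?_⟩
    have h3 : {f | r s f ∉ KS fun R => Cr * (θ R).toReal} ⊆
        ⋃ R : ℕ, {f | θ R ≤ ∫⁻ v in Metric.closedBall (0 : ℂ) ((R : ℝ) + 1), ‖f v‖ₑ} := by
      intro f hf
      by_contra hcon
      refine hf ?_
      simp only [Set.mem_iUnion, Set.mem_ofPred_eq, not_exists, not_le] at hcon
      intro R x y hx hy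
      obtain ⟨b1, b2⟩ := hrb s R f x y hx hy
      have h5 := real_mass f ((R : ℝ) + 1) (hθt R) (hcon R)
      have h6 := mul_le_mul_of_nonneg_left h5 hCr
      exact ⟨b1.trans h6, b2.trans (mul_le_mul_of_nonneg_right h6 (norm_nonneg _))⟩
    refine (measure_mono h3).trans ((measure_iUnion_le _).trans ?_)
    refine (ENNReal.tsum_le_tsum fun R => ?_).trans hsum.le
    refine (meas_ge_le_lintegral_div (meas_mass _).aemeasurable (hθ0 R) (hθt R)).trans ?_
    refine ENNReal.div_le_of_le_mul ((hM R n).trans ?_)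
    calc CM R = ε' R * (CM R / (ε' R : ℝ≥0∞)) := by
          rw [ENNReal.mul_div_cancel (e0 R) ENNReal.coe_ne_top]
      _ ≤ ε' R * θ R := mul_le_mul_right le_self_add _
  refine ⟨fun n => r ((ρ n : ℝ) + 1), fun n => hrc _, ?_, ?_⟩
  · intro ε hε
    obtain ⟨K, hK⟩ := ht ε hε
    exact ⟨K, fun n => hK n _⟩
  · rintro G hG ⟨C, hC⟩
    have hC0 : 0 ≤ C := (abs_nonneg (G 0)).trans (hC 0)
    have hint : ∀ n, Integrable G (m n) := fun n => by
      have := hm.prob n
      exact Integrable.of_bound hG.measurable.aestronglyMeasurable C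
        (Eventually.of_forall fun f => by rw [Real.norm_eq_abs]; exact hC f)
    have hint2 : ∀ n, Integrable (fun f => G (r ((ρ n : ℝ) + 1) f)) (m n) := fun n => by
      have := hm.prob n
      exact Integrable.of_bound (hG.comp (hrc _)).measurable.aestronglyMeasurable C
        (Eventually.of_forall fun f => by rw [Real.norm_eq_abs]; exact hC _)
    rw [Metric.tendsto_atTop']
    intro η hη
    -- the error terms
    set ε : ℝ := η / (2 * (1 + 4 * C)) with hε
    have hε0 : 0 < ε := by positivity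
    obtain ⟨K, hK⟩ := ht (ENNReal.ofReal ε) (ENNReal.ofReal_pos.2 hε0)
    obtain ⟨R, hR⟩ := h1 (KS K) (h0 K) G hG ε hε0
    have e1 : ∀ᶠ n in atTop, R ≤ (ρ n : ℝ) :=
      (tendsto_natCast_atTop_atTop.comp hρ).eventually (eventually_ge_atTop R)
    have e2 : ∀ᶠ n in atTop, m n {f | ¬ Good (ρ n : ℝ) f} ≤ ENNReal.ofReal ε :=
      hρ0.eventually (Iic_mem_nhds (ENNReal.ofReal_pos.2 hε0))
    obtain ⟨N, hN⟩ := eventually_atTop.1 (e1.and e2)
    refine ⟨N, fun n hn => ?_⟩
    obtain ⟨h3, h4⟩ := hN n hn.le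
    have := hm.prob n
    set S : Set C(ℂ, ℝ) := {f | r ((ρ n : ℝ) + 1) f ∉ KS K} ∪ {f | ¬ Good (ρ n : ℝ) f} with hS
    set A : Set C(ℂ, ℝ) := toMeasurable (m n) S with hA
    have hAm : MeasurableSet A := measurableSet_toMeasurable _ _
    have hAv : m n A ≤ ENNReal.ofReal (2 * ε) := by
      rw [hA, measure_toMeasurable]
      refine (measure_union_le _ _).trans ((add_le_add (hK n _) h4).trans (le_of_eq ?_))
      rw [← ENNReal.ofReal_add hε0.le hε0.le, two_mul]
    have hAr : (m n).real A ≤ 2 * ε := by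
      have := ENNReal.toReal_mono ENNReal.ofReal_ne_top hAv
      rwa [ENNReal.toReal_ofReal (by positivity)] at this
    have hpt : ∀ f, ‖G f - G (r ((ρ n : ℝ) + 1) f)‖ ≤ ε + A.indicator (fun _ => 2 * C) f := by
      intro f
      rw [Real.norm_eq_abs]
      by_cases hf : f ∈ S
      · have h5 : f ∈ A := subset_toMeasurable _ _ hf
        rw [Set.indicator_of_mem h5]
        have h6 := abs_sub (G f) (G (r ((ρ n : ℝ) + 1) f))
        have h7 := hC f
        have h8 := hC (r ((ρ n : ℝ) + 1) f)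
        linarith
      · have h5 : r ((ρ n : ℝ) + 1) f ∈ KS K := by
          by_contra hcon
          exact hf (Or.inl hcon)
        have h6 : Good (ρ n : ℝ) f := by
          by_contra hcon
          exact hf (Or.inr hcon)
        have h7 := hR _ h5 f (fun x hx => (hrg ((ρ n : ℝ) + 1) (ρ n) f le_rfl h6 x (hx.trans h3)).symm)
        have h8 : 0 ≤ A.indicator (fun _ => 2 * C) f := Set.indicator_nonneg (fun _ _ => by positivity) f
        linarith
    have hI : Integrable (fun f => ε + A.indicator (fun _ => 2 * C) f) (m n) :=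
      (integrable_const ε).add ((integrable_const (2 * C)).indicator hAm)
    rw [Real.dist_eq, sub_zero, ← integral_sub (hint n) (hint2 n), ← Real.norm_eq_abs]
    refine lt_of_le_of_lt (norm_integral_le_of_norm_le hI (Eventually.of_forall hpt)) ?_
    rw [integral_add (integrable_const ε) ((integrable_const (2 * C)).indicator hAm),
      integral_const, integral_indicator_const _ hAm]
    simp only [probReal_univ, smul_eq_mul, one_mul]
    have h9 : (m n).real A * (2 * C) ≤ 2 * ε * (2 * C) :=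
      mul_le_mul_of_nonneg_right hAr (by positivity)
    have h10 : ε * (1 + 4 * C) = η / 2 := by
      rw [hε]
      field_simp
    nlinarith

end Pool.Agent.H591.BE
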